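import Pool.Agent.W865.SS.Steiner

/-!
# The Boolean algebra of reached residue classes

Products, complements and decision trees of Steiner systems `S(n,q,2)`.
-/

set_option autoImplicit false

namespace Pool.Agent.Q109.SA

open Finset H108 Pool.Agent.W865.SS
open Pool.Agent.W855 (OA td_gen)

theorem adm_of_ig {q m : ℕ} (hm : 0 < m) (h : IG {q} 1 m 0) : Adm q m := by
  obtain ⟨B, h1, h2⟩ := steiner_of_ig h
  refine ⟨Pool.Agent.W855.necessary_one hm h1 h2, ?_, hm⟩
  have h3 := Pool.Agent.W855.necessary_zero h1 h2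
  rw [← Pool.Agent.W855.two_mul_choose', ← Pool.Agent.W855.two_mul_choose']
  exact Nat.mul_dvd_mul_left 2 h3

theorem adm_dvd {q m : ℕ} (h : Adm q m) : q ∣ m * (m - 1) :=
  (Dvd.intro _ rfl).trans h.2.1

theorem pow_dvd_or {q m p k : ℕ} (h : Adm q m) (hp : p.Prime) (hk : p ^ k ∣ q) :
    p ^ k ∣ m ∨ p ^ k ∣ m - 1 := by
  have h1 : p ^ k ∣ m * (m - 1) := hk.trans (adm_dvd h)
  have hcop : Nat.Coprime m (m - 1) := by
    have h0 := h.2.2
    obtain ⟨t, rfl⟩ : ∃ t, m = t + 1 := ⟨m - 1, by omega⟩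
    simp
  by_cases hpm : p ∣ m
  · left
    have : Nat.Coprime (p ^ k) (m - 1) := by
      apply Nat.Coprime.pow_left
      exact Nat.Coprime.coprime_dvd_left hpm hcop
    exact this.dvd_of_dvd_mul_right h1
  · right
    have : Nat.Coprime (p ^ k) m := by
      apply Nat.Coprime.pow_left
      exact (Nat.Prime.coprime_iff_not_dvd hp).2 hpm
    exact this.dvd_of_dvd_mul_left h1

theorem dvd_pred_iff {q m p : ℕ} (h : Adm q m) (hp : p.Prime) (hpq : p ∣ q) :
    p ∣ m - 1 ↔ ¬ p ∣ m := by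
  have h0 := h.2.2
  constructor
  · intro h1 h2
    have h3 : p ∣ m - (m - 1) := Nat.dvd_sub h2 h1
    have h4 : m - (m - 1) = 1 := by omega
    rw [h4] at h3
    exact hp.one_lt.ne' (Nat.dvd_one.1 h3)
  · intro h1
    have := pow_dvd_or (k := 1) h hp (by simpa using hpq)
    simp only [pow_one] at this
    tauto

/-- an admissible number is determined modulo `q (q - 1)` by the primes of `q` dividing it -/
theorem class_eq {q n m : ℕ} (hq : 2 ≤ q) (hn : Adm q n) (hm : Adm q m)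
    (h : ∀ p, p.Prime → p ∣ q → (p ∣ n ↔ p ∣ m)) : n ≡ m [MOD q * (q - 1)] := by
  have hcop : Nat.Coprime q (q - 1) := by
    obtain ⟨t, rfl⟩ : ∃ t, q = t + 1 := ⟨q - 1, by omega⟩
    simp
  have hn0 := hn.2.2
  have hm0 := hm.2.2
  refine (Nat.modEq_and_modEq_iff_modEq_mul hcop).1 ⟨?_, ?_⟩
  · rw [Nat.modEq_iff_dvd]
    rw [← Int.dvd_natAbs, Int.natCast_dvd_natCast, Nat.dvd_iff_prime_pow_dvd_dvd]
    intro p k hp hk
    rcases Nat.eq_zero_or_pos k with rfl | hk0
    · simp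
    have hpk : p ∣ p ^ k := dvd_pow_self p hk0.ne'
    have hpq : p ∣ q := hpk.trans hk
    rw [← Int.natCast_dvd_natCast, Int.dvd_natAbs]
    by_cases hpn : p ∣ n
    · have hpm : p ∣ m := (h p hp hpq).1 hpn
      have h1 : p ^ k ∣ n := by
        rcases pow_dvd_or hn hp hk with h | h
        · exact h
        · exact absurd hpn ((dvd_pred_iff hn hp hpq).1 (hpk.trans h))
      have h2 : p ^ k ∣ m := by
        rcases pow_dvd_or hm hp hk with h | h
        · exact h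
        · exact absurd hpm ((dvd_pred_iff hm hp hpq).1 (hpk.trans h))
      exact dvd_sub (Int.natCast_dvd_natCast.2 h2) (Int.natCast_dvd_natCast.2 h1)
    · have hpm : ¬ p ∣ m := fun hc => hpn ((h p hp hpq).2 hc)
      have h1 : p ^ k ∣ n - 1 := by
        rcases pow_dvd_or hn hp hk with h | h
        · exact absurd (hpk.trans h) hpn
        · exact h
      have h2 : p ^ k ∣ m - 1 := by
        rcases pow_dvd_or hm hp hk with h | h
        · exact absurd (hpk.trans h) hpm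
        · exact h
      have h3 : ((p ^ k : ℕ) : ℤ) ∣ ((m - 1 : ℕ) : ℤ) - ((n - 1 : ℕ) : ℤ) :=
        dvd_sub (Int.natCast_dvd_natCast.2 h2) (Int.natCast_dvd_natCast.2 h1)
      have e : ((m - 1 : ℕ) : ℤ) - ((n - 1 : ℕ) : ℤ) = (m : ℤ) - n := by
        rw [Nat.cast_sub hm0, Nat.cast_sub hn0]
        ring
      rwa [e] at h3
  · have h1 : n ≡ 1 [MOD q - 1] := ((Nat.modEq_iff_dvd' (by omega)).2 hn.1).symm
    have h2 : m ≡ 1 [MOD q - 1] := ((Nat.modEq_iff_dvd' (by omega)).2 hm.1).symm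
    exact h1.trans h2.symm

/-- complement -/
theorem compl {C q m v : ℕ} (hT : ∀ N : ℕ, 2 ≤ N → ∀ n : ℕ, N ^ C ≤ n → OA N n) (hq : 2 ≤ q)
    (hm0 : 0 < m) (hm : IG {q} 1 m 0) (hv : IG {q} 1 v 0) (hvC : q ^ C < v) :
    IG {q} 1 (m * (v - 1) + 1) 0 := by
  refine ig_prod_one (hT q hq _ (by omega)) hm ?_
  have : v - 1 + 1 = v := by omega
  rwa [this]

theorem compl_dvd {q m v p : ℕ} (hm : Adm q m) (hv0 : 0 < v) (hp : p.Prime) (hpq : p ∣ q)
    (hpv : p ∣ v) : p ∣ m * (v - 1) + 1 ↔ ¬ p ∣ m := by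
  have h0 := hm.2.2
  have e : m * (v - 1) + 1 + (m - 1) = m * v := by
    obtain ⟨w, rfl⟩ : ∃ w, v = w + 1 := ⟨v - 1, by omega⟩
    obtain ⟨t, rfl⟩ : ∃ t, m = t + 1 := ⟨m - 1, by omega⟩
    simp only [Nat.add_sub_cancel]
    ring
  have h1 : p ∣ m * (v - 1) + 1 + (m - 1) := by
    rw [e]; exact Dvd.dvd.mul_left hpv m
  rw [← dvd_pred_iff hm hp hpq]
  exact ⟨fun h => (Nat.dvd_add_right h).1 h1, fun h => (Nat.dvd_add_left h).1 h1⟩

/-- the decision tree -/
theorem tree {C q V M : ℕ} (hT : ∀ N : ℕ, 2 ≤ N → ∀ n : ℕ, N ^ C ≤ n → OA N n) (hq : 2 ≤ q)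
    {L : ℕ} (hLC : q ^ C < L) {u0 v0 : ℕ} (hu : IG {q} 1 u0 0) (hv : IG {q} 1 v0 0)
    (huL : L ≤ u0) (hvL : L ≤ v0) (huV : u0 ≤ V) (hvV : v0 ≤ V) (hMV : M ≤ V)
    (hu1 : ∀ p, p.Prime → p ∣ q → ¬ p ∣ u0) (hv1 : ∀ p, p.Prime → p ∣ q → p ∣ v0)
    (S : Set ℕ) (hS : ∀ m ∈ S, L ≤ m ∧ m ≤ M ∧ IG {q} 1 m 0)
    (hsep : ∀ p r : ℕ, p.Prime → r.Prime → p ∣ q → r ∣ q → p ≠ r →
      ∃ m ∈ S, (p ∣ m ↔ ¬ r ∣ m)) (T : Set ℕ) :
    ∀ k : ℕ, ∀ A : Finset ℕ, A.card = k + 1 → A ⊆ q.primeFactors →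
      ∃ x, L ≤ x ∧ x ≤ V ^ (7 * k + 1) ∧ IG {q} 1 x 0 ∧ ∀ p ∈ A, (p ∣ x ↔ p ∈ T) := by
  classical
  have hq0 : q ≠ 0 := by omega
  intro k
  induction k using Nat.strong_induction_on with
  | _ k ih =>
    intro A hA hAq
    rcases Nat.eq_zero_or_pos k with rfl | hk
    · obtain ⟨p, rfl⟩ := Finset.card_eq_one.1 (by simpa using hA)
      have hp := Nat.mem_primeFactors.1 (hAq (mem_singleton_self p))
      by_cases hpT : p ∈ T
      · exact ⟨v0, hvL, by simpa using hvV, hv, by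
          intro r hr
          rw [mem_singleton.1 hr]
          exact ⟨fun _ => hpT, fun _ => hv1 p hp.1 hp.2.1⟩⟩
      · exact ⟨u0, huL, by simpa using huV, hu, by
          intro r hr
          rw [mem_singleton.1 hr]
          exact ⟨fun h => absurd h (hu1 p hp.1 hp.2.1), fun h => absurd h hpT⟩⟩
    · obtain ⟨p, hpA, r, hrA, hpr⟩ := Finset.one_lt_card.1 (by omega : 1 < A.card)
      have hp := Nat.mem_primeFactors.1 (hAq hpA)
      have hr := Nat.mem_primeFactors.1 (hAq hrA)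
      obtain ⟨m, hmS, hm⟩ := hsep p r hp.1 hr.1 hp.2.1 hr.2.1 hpr
      obtain ⟨hmL, hmM, hmI⟩ := hS m hmS
      -- the two halves
      set A1 := A.filter (fun p => p ∣ m) with hA1
      set A2 := A.filter (fun p => ¬ p ∣ m) with hA2
      have hcard : A1.card + A2.card = A.card := Finset.card_filter_add_card_filter_not _
      have h1 : 0 < A1.card ∧ 0 < A2.card := by
        rw [Finset.card_pos, Finset.card_pos]
        by_cases hpm : p ∣ m
        · exact ⟨⟨p, mem_filter.2 ⟨hpA, hpm⟩⟩, ⟨r, mem_filter.2 ⟨hrA, hm.1 hpm⟩⟩⟩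
        · refine ⟨⟨r, mem_filter.2 ⟨hrA, ?_⟩⟩, ⟨p, mem_filter.2 ⟨hpA, hpm⟩⟩⟩
          by_contra hc
          exact hpm (hm.2 hc)
      obtain ⟨k1, hk1⟩ : ∃ k1, A1.card = k1 + 1 := ⟨A1.card - 1, by omega⟩
      obtain ⟨k2, hk2⟩ : ∃ k2, A2.card = k2 + 1 := ⟨A2.card - 1, by omega⟩
      obtain ⟨x1, hx1L, hx1V, hx1I, hx1⟩ := ih k1 (by omega) A1 hk1 ((filter_subset _ _).trans hAq)
      obtain ⟨x2, hx2L, hx2V, hx2I, hx2⟩ := ih k2 (by omega) A2 hk2 ((filter_subset _ _).trans hAq)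
      have hL0 : 0 < L := by omega
      have hL1 : 1 < L := by
        have : 0 < q ^ C := Nat.pow_pos (by omega)
        omega
      have hvC : q ^ C < v0 := by omega
      have hm0 : 0 < m := by omega
      -- complement of `m`
      set m' := m * (v0 - 1) + 1 with hm'
      have hm'I : IG {q} 1 m' 0 := compl hT hq hm0 hmI hv hvC
      have hmm' : m ≤ m' := by
        rw [hm']
        have : m * 1 ≤ m * (v0 - 1) := Nat.mul_le_mul_left m (by omega)
        omega
      have cle : ∀ y, 0 < y → y * (v0 - 1) + 1 ≤ y * V := by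
        intro y hy
        calc y * (v0 - 1) + 1 ≤ y * (v0 - 1) + y := by omega
          _ = y * v0 := by
            obtain ⟨w, hw⟩ : ∃ w, v0 = w + 1 := ⟨v0 - 1, by omega⟩
            rw [hw, Nat.add_sub_cancel]; ring
          _ ≤ y * V := Nat.mul_le_mul_left y hvV
      have cge : ∀ y, y ≤ y * (v0 - 1) + 1 := by
        intro y
        have : y * 1 ≤ y * (v0 - 1) := Nat.mul_le_mul_left y (by omega)
        omega
      -- `z1 = x1 * m'` and `z2 = x2 * m`
      have hz1I : IG {q} 1 (x1 * m') 0 := ig_prod (hT q hq _ (by omega)) hx1I hm'I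
      have hz2I : IG {q} 1 (x2 * m) 0 := ig_prod (hT q hq _ (by omega)) hx2I hmI
      have hz10 : 0 < x1 * m' := Nat.mul_pos (by omega) (by omega)
      have hz20 : 0 < x2 * m := Nat.mul_pos (by omega) (by omega)
      set y1 := x1 * m' * (v0 - 1) + 1 with hy1
      set y2 := x2 * m * (v0 - 1) + 1 with hy2
      have hy1I : IG {q} 1 y1 0 := compl hT hq hz10 hz1I hv hvC
      have hy2I : IG {q} 1 y2 0 := compl hT hq hz20 hz2I hv hvC
      have hy1L : L ≤ y1 := by
        refine le_trans ?_ (cge _)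
        calc L ≤ x1 := hx1L
          _ = x1 * 1 := (mul_one _).symm
          _ ≤ x1 * m' := Nat.mul_le_mul_left _ (by omega)
      have hy2L : L ≤ y2 := by
        refine le_trans ?_ (cge _)
        calc L ≤ x2 := hx2L
          _ = x2 * 1 := (mul_one _).symm
          _ ≤ x2 * m := Nat.mul_le_mul_left _ (by omega)
      have hwI : IG {q} 1 (y1 * y2) 0 := ig_prod (hT q hq _ (by omega)) hy1I hy2I
      have hw0 : 0 < y1 * y2 := Nat.mul_pos (by omega) (by omega)
      refine ⟨y1 * y2 * (v0 - 1) + 1, ?_, ?_, compl hT hq hw0 hwI hv hvC, ?_⟩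
      · refine le_trans ?_ (cge _)
        calc L ≤ y1 := hy1L
          _ = y1 * 1 := (mul_one _).symm
          _ ≤ y1 * y2 := Nat.mul_le_mul_left _ (by omega)
      · refine (cle _ hw0).trans ?_
        have b1 : y1 ≤ V ^ (7 * k1 + 1) * (V * V) * V := by
          refine (cle _ hz10).trans ?_
          refine Nat.mul_le_mul_right V (Nat.mul_le_mul hx1V ?_)
          exact (cle _ hm0).trans (Nat.mul_le_mul_right V (hmM.trans hMV))
        have b2 : y2 ≤ V ^ (7 * k2 + 1) * V * V := by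
          refine (cle _ hz20).trans ?_
          exact Nat.mul_le_mul_right V (Nat.mul_le_mul hx2V (hmM.trans hMV))
        calc y1 * y2 * V ≤ (V ^ (7 * k1 + 1) * (V * V) * V) * (V ^ (7 * k2 + 1) * V * V) * V :=
              Nat.mul_le_mul_right V (Nat.mul_le_mul b1 b2)
          _ = V ^ (7 * (k1 + k2 + 1) + 1) := by ring
          _ = V ^ (7 * k + 1) := by
            congr 2
            omega
      · intro p hpA
        have hp := Nat.mem_primeFactors.1 (hAq hpA)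
        have hvp := hv1 p hp.1 hp.2.1
        have hv00 : 0 < v0 := by omega
        rw [compl_dvd (adm_of_ig hw0 hwI) hv00 hp.1 hp.2.1 hvp, hp.1.dvd_mul,
          compl_dvd (adm_of_ig hz10 hz1I) hv00 hp.1 hp.2.1 hvp,
          compl_dvd (adm_of_ig hz20 hz2I) hv00 hp.1 hp.2.1 hvp, hp.1.dvd_mul, hp.1.dvd_mul,
          compl_dvd (adm_of_ig hm0 hmI) hv00 hp.1 hp.2.1 hvp]
        by_cases hpm : p ∣ m
        · have := hx1 p (mem_filter.2 ⟨hpA, hpm⟩)
          tauto
        · have := hx2 p (mem_filter.2 ⟨hpA, hpm⟩)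
          tauto

end Pool.Agent.Q109.SA
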