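import Pool.Agent.Q109.SA.Core

/-!
# The Boolean algebra of reached residue classes: main statements
-/

set_option autoImplicit false

namespace Pool.Agent.Q109.SA

open Finset H108 Pool.Agent.W865.SS
open Pool.Agent.W855 (OA td_gen)

/-- the two constants, in a form with a common exponent -/
theorem consts : ∃ E : ℕ, 1 ≤ E ∧
    (∀ N : ℕ, 2 ≤ N → ∀ n : ℕ, N ^ (E - 1) ≤ n → OA N n) ∧
    (∀ b : ℕ, 3 ≤ b → ∀ n0 : ℕ, b ^ E ≤ n0 → IG {b} 1 n0 0 → ∀ n : ℕ, n0 ^ E ≤ n →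
      (n ≡ n0 [MOD b * (b - 1)] ∨ n ≡ 1 [MOD b * (b - 1)] ∨ n ≡ b [MOD b * (b - 1)]) →
      IG {b} 1 n 0) := by
  obtain ⟨K, hK⟩ := persist
  obtain ⟨C, hC, hT⟩ := td_gen
  refine ⟨K + C + 1, by omega, ?_, ?_⟩
  · intro N hN n hn
    refine hT N hN n (le_trans ?_ hn)
    exact Nat.pow_le_pow_right (by omega) (by omega)
  · intro b hb n0 hn0 h0 n hn hmod
    have hpos : 0 < n0 := lt_of_lt_of_le (Nat.pow_pos (by omega)) hn0
    refine hK b hb n0 (le_trans ?_ hn0) h0 (adm_of_ig hpos h0).1 n (le_trans ?_ hn) hmod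
    · exact Nat.pow_le_pow_right (by omega) (by omega)
    · exact Nat.pow_le_pow_right hpos (by omega)

theorem adm_self {q : ℕ} (hq : 1 ≤ q) : Adm q q := ⟨dvd_rfl, dvd_rfl, hq⟩

theorem adm_one (q : ℕ) : Adm q 1 := ⟨by simp, by simp, le_rfl⟩

/-- trivial classes, close to a seed -/
theorem near {E : ℕ} (hE : 1 ≤ E)
    (hP : ∀ b : ℕ, 3 ≤ b → ∀ n0 : ℕ, b ^ E ≤ n0 → IG {b} 1 n0 0 → ∀ n : ℕ, n0 ^ E ≤ n →
      (n ≡ n0 [MOD b * (b - 1)] ∨ n ≡ 1 [MOD b * (b - 1)] ∨ n ≡ b [MOD b * (b - 1)]) →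
      IG {b} 1 n 0) {q m : ℕ} (hq : 3 ≤ q) (hm : q ^ E ≤ m) (h : IG {q} 1 m 0) :
    ∃ u v : ℕ, IG {q} 1 u 0 ∧ IG {q} 1 v 0 ∧ m < u ∧ m < v ∧ u ≤ m ^ (E + 2) ∧ v ≤ m ^ (E + 2) ∧
      u ≡ 1 [MOD q * (q - 1)] ∧ v ≡ q [MOD q * (q - 1)] := by
  have hqm : q ≤ m := le_trans (Nat.le_self_pow (by omega) _) hm
  have hm0 : 0 < m := by omega
  have hme : m ≤ m ^ E := Nat.le_self_pow (by omega) _
  have hq1 : 1 < q * (q - 1) := by
    obtain ⟨l, rfl⟩ : ∃ l, q = l + 1 := ⟨q - 1, by omega⟩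
    simp only [Nat.add_sub_cancel]
    nlinarith
  have hme0 : 0 < m ^ E := Nat.pow_pos hm0
  have h1 : m ^ E < q * (q - 1) * m ^ E := by nlinarith
  have hup : q * (q - 1) * m ^ E + q ≤ m ^ (E + 2) := by
    obtain ⟨l, rfl⟩ : ∃ l, q = l + 1 := ⟨q - 1, by omega⟩
    simp only [Nat.add_sub_cancel]
    calc (l + 1) * l * m ^ E + (l + 1) ≤ (l + 1) * l * m ^ E + (l + 1) * m ^ E :=
          Nat.add_le_add_left (Nat.le_mul_of_pos_right _ hme0) _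
      _ = (l + 1) * (l + 1) * m ^ E := by ring
      _ ≤ m * m * m ^ E := Nat.mul_le_mul_right _ (Nat.mul_le_mul hqm hqm)
      _ = m ^ (E + 2) := by ring
  have m1 : q * (q - 1) * m ^ E + 1 ≡ 1 [MOD q * (q - 1)] := by
    simp [Nat.ModEq]
  have m2 : q * (q - 1) * m ^ E + q ≡ q [MOD q * (q - 1)] := by
    simp [Nat.ModEq]
  refine ⟨q * (q - 1) * m ^ E + 1, q * (q - 1) * m ^ E + q,
    hP q hq m hm h _ (by omega) (Or.inr (Or.inl m1)),
    hP q hq m hm h _ (by omega) (Or.inr (Or.inr m2)), by omega, by omega, by omega, hup, m1, m2⟩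

/-- separating seeds decide all large cases -/
theorem decide_sep : ∃ K : ℕ, ∀ q : ℕ, 3 ≤ q → ∀ M : ℕ, ∀ S : Set ℕ, S.Nonempty →
    (∀ m ∈ S, q ^ K ≤ m ∧ m ≤ M ∧ IG {q} 1 m 0) →
    (∀ p r : ℕ, p.Prime → r.Prime → p ∣ q → r ∣ q → p ≠ r → ∃ m ∈ S, (p ∣ m ↔ ¬ r ∣ m)) →
    ∀ n : ℕ, M ^ (K * q.primeFactors.card) ≤ n → Adm q n → IG {q} 1 n 0 := by
  obtain ⟨E, hE, hT, hP⟩ := consts
  refine ⟨7 * (E + 2) * E, ?_⟩
  intro q hq M S hS1 hS hsep n hn hadm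
  have hEK : E ≤ 7 * (E + 2) * E := Nat.le_mul_of_pos_left _ (by omega)
  have hqEK : q ^ E ≤ q ^ (7 * (E + 2) * E) := Nat.pow_le_pow_right (by omega) hEK
  obtain ⟨m0, hm0⟩ := hS1
  obtain ⟨h1, h2, h3⟩ := hS m0 hm0
  obtain ⟨u, v, hu, hv, hmu, hmv, huV, hvV, mu, mv⟩ := near hE hP hq (hqEK.trans h1) h3
  have hM0 : 0 < M := by
    have : 0 < q ^ E := Nat.pow_pos (by omega)
    omega
  have hV : m0 ^ (E + 2) ≤ M ^ (E + 2) := Nat.pow_le_pow_left h2 _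
  have hdq : ∀ p : ℕ, p ∣ q → p ∣ q * (q - 1) := fun p hp => Dvd.dvd.mul_right hp _
  have hω : 0 < q.primeFactors.card := by
    rw [Finset.card_pos, Nat.nonempty_primeFactors]
    omega
  have hLC : q ^ (E - 1) < q ^ E := Nat.pow_lt_pow_right (by omega) (by omega)
  obtain ⟨x, hxL, hxV, hxI, hx⟩ := tree (C := E - 1) (q := q) (V := M ^ (E + 2)) (M := M) hT (by omega)
    (L := q ^ E) hLC hu hv (by omega) (by omega) (huV.trans hV) (hvV.trans hV)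
    (Nat.le_self_pow (by omega) _)
    (by
      intro p hp hpq hpu
      have h5 : p ∣ 1 := ((mu.of_dvd (hdq p hpq)).dvd_iff dvd_rfl).1 hpu
      exact hp.one_lt.ne' (Nat.dvd_one.1 h5))
    (by
      intro p hp hpq
      exact ((mv.of_dvd (hdq p hpq)).dvd_iff dvd_rfl).2 hpq) S
    (fun m hm => ⟨hqEK.trans (hS m hm).1, (hS m hm).2.1, (hS m hm).2.2⟩) hsep {p | p ∣ n}
    (q.primeFactors.card - 1) q.primeFactors (by omega) subset_rfl
  have hx0 : 0 < x := by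
    have : 0 < q ^ E := Nat.pow_pos (by omega)
    omega
  refine hP q hq x hxL hxI n ?_ (Or.inl (class_eq (by omega) hadm (adm_of_ig hx0 hxI) ?_))
  · refine le_trans ?_ hn
    calc x ^ E ≤ ((M ^ (E + 2)) ^ (7 * (q.primeFactors.card - 1) + 1)) ^ E :=
          Nat.pow_le_pow_left hxV _
      _ ≤ ((M ^ (E + 2)) ^ (7 * q.primeFactors.card)) ^ E := by
          apply Nat.pow_le_pow_left
          exact Nat.pow_le_pow_right (Nat.pow_pos hM0) (by omega)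
      _ = M ^ (7 * (E + 2) * E * q.primeFactors.card) := by
          rw [← pow_mul, ← pow_mul]
          congr 1
          ring
  · intro p hp hpq
    exact (hx p (Nat.mem_primeFactors.2 ⟨hp, hpq, by omega⟩)).symm

end Pool.Agent.Q109.SA
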